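import Pool.Agent.Lib_MP_225a87_nt.Master

/-!
# Conjugate sets in intervals of length 4: numbers of bounded degree over the maximal abelian extension of `ℚ`

Let `a` be a real number which is not an integer, and let `D` be a natural number.  We show that
the interval `[a, a+4]` contains only finitely many conjugate sets `{α₁, …, α_d}` such that some
`α_i` has degree at most `D` over some cyclotomic field.

Outline of the proof.  For a number field `F` and a primitive root of unity `ζ` of order
`N = ℓ^k N'`, `ℓ ∤ disc F`, let `g` be the minimal polynomial of a zero `z` over `F(ζ)`, of degree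
`r ≤ D`, and let `s_j` be its power sums.  The discriminants of `F(ζ)` and `F(ζ^(ℓ^m))` differ by a
known power of `ℓ`.  This and a Fekete type energy estimate, in which the energy of an interval of
length 4 is zero, show that the conjugates of `z` over `F(ζ^(ℓ^m))` are close to the arcsine
distribution of `[a, a+4]` (in mean square over all embeddings) if `z` is not fixed by
`Gal(F(ζ)/F(ζ^(ℓ^m)))` in a suitable sense.  The group action then gives that the power sums `s_j`
do not change when the last `ℓ`-layers are removed (wild case), and if `k = 1` and `ℓ` is large, the
expansion of `s_1` in the powers of a root of unity `ζ_ℓ` has only very few terms, which again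
contradicts the distribution of `z` unless `g` has its coefficients in the smaller field.
-/

open Polynomial IntermediateField

namespace Pool.Agent.Results.MP_225a87_nt.BoundedDegreeOverQab

/-- **Bounded degree over the maximal abelian extension.** Let `a` be a real number, not an integer,
and let `D` be a natural number.  There are only finitely many monic irreducible `p ∈ ℤ[x]`, all of
whose complex zeros are real and lie in `[a, a+4]`, which have a zero `z` of degree at most `D` over
`ℚ(ζ)` for some root of unity `ζ`. -/
theorem result (a : ℝ) (ha : ∀ n : ℤ, (n : ℝ) ≠ a) (D : ℕ) :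
    {p : ℤ[X] | (p.Monic ∧ Irreducible p ∧
        ∀ z : ℂ, aeval z p = 0 → z.im = 0 ∧ a ≤ z.re ∧ z.re ≤ a + 4) ∧
      ∃ z ζ : ℂ, ∃ N : ℕ, 0 < N ∧ ζ ^ N = 1 ∧ aeval z p = 0 ∧
        (minpoly ↥(ℚ⟮ζ⟯) z).natDegree ≤ D}.Finite :=
  MP225.bd a ha D

end Pool.Agent.Results.MP_225a87_nt.BoundedDegreeOverQab
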