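import Pool.Agent.Lib_MP_225a87_nt.Master

/-!
# Conjugate sets in intervals of length 4: uniformity over all number fields

Let `a` be a real number which is not an integer, and `D` a natural number.  There is an integer
`N₀`, which depends only on `a` and `D`, with the following property.  Let `F` be any number field,
let `ζ` be a primitive root of unity of order `N` prime to the discriminant of `F`, and let `z` be a
member of a conjugate set contained in `[a, a+4]`, of degree at most `D` over `F(ζ)`.  Then `z` has
the same degree over `F(ζ')`, where `ζ' = ζ^(N/gcd(N,N₀))` is a primitive root of unity of order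
`gcd(N, N₀)`: the minimal polynomial of `z` over `F(ζ)` is defined over `F(ζ')`.
-/

open Polynomial IntermediateField

namespace Pool.Agent.Results.MP_225a87_nt.CyclotomicLayers

/-- **Cyclotomic layers.** Let `a` be a real number, not an integer, and let `D` be a natural number.
There is `N₀ > 0` such that for every monic irreducible `p ∈ ℤ[x]` all of whose complex zeros are
real and lie in `[a, a+4]`, for every number field `F ⊂ ℂ`, every `N > 0` prime to the discriminant
of `F`, every primitive `N`-th root of unity `ζ` and every zero `z` of `p` of degree at most `D` over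
`F(ζ)`, the degree of `z` over `F(ζ^(N/gcd(N,N₀)))` equals its degree over `F(ζ)`. -/
theorem result (a : ℝ) (ha : ∀ n : ℤ, (n : ℝ) ≠ a) (D : ℕ) :
    ∃ N₀ : ℕ, 0 < N₀ ∧ ∀ p : ℤ[X],
      (p.Monic ∧ Irreducible p ∧
        ∀ z : ℂ, aeval z p = 0 → z.im = 0 ∧ a ≤ z.re ∧ z.re ≤ a + 4) →
      ∀ (F : IntermediateField ℚ ℂ) [NumberField F] (N : ℕ), 0 < N →
        N.Coprime (NumberField.discr F).natAbs →
        ∀ z ζ : ℂ, IsPrimitiveRoot ζ N → aeval z p = 0 →
          (minpoly ↥(F ⊔ ℚ⟮ζ⟯) z).natDegree ≤ D →
          (minpoly ↥(F ⊔ ℚ⟮ζ ^ (N / Nat.gcd N N₀)⟯) z).natDegree =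
            (minpoly ↥(F ⊔ ℚ⟮ζ⟯) z).natDegree :=
  MP225.master a ha D

end Pool.Agent.Results.MP_225a87_nt.CyclotomicLayers
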