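import Pool.Agent.Lib_MP_225a87_ls.Main

/-!
# An interval of length 4 contains at most `C X log X` conjugate sets of degree at most `X`

Let `L` be a number field of degree `d`, and for each embedding `φ : L → ℂ` let `a φ` be a real
number.  We bound the number of monic irreducible polynomials `P` of degree at most `X` over the
integers of `L` such that, for every `φ`, all roots of the conjugate polynomial `P^φ` are real and
lie in `[a φ, a φ + 4]` (even in the slightly longer interval `[a φ, a φ + 4 + 1/(256 d X²)]`): there
are at most `20000 d X log (2 d X)` of them.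

* `L = ℚ`: for every real `a` the interval `[a, a+4]` contains at most `20000 X log (2 X)` conjugate
  sets of degree at most `X`.  For integers `a` it contains at least `c X` of them.
* `X = 1`: at most `20000 d log (2 d)` integers of `L` have each conjugate in the prescribed interval
  of length 4.

Outline of the proof.  Write the roots of `P^φ` as `a φ + 2 + 2 cos θ` and let
`S_m^φ(P) = ∑ 2 cos (m θ)`.  By the expansion of `-log |1 - ρ e^{i(θ-ψ)}| - log |1 - ρ e^{i(θ+ψ)}|`
and since the norm of the resultant of two different polynomials `P`, `Q` is at least 1 in absolute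
value, the vectors `(S_m^φ(P))` have very small positive correlations in the Hilbert space with
weights `ρ^m / (2 m)`.  Together with the bound of their norms, which follows from the discriminant,
this gives that for at least half of the polynomials the Gram matrix has small norm (a large sieve
inequality): `∑_P S_m^φ(P)² / deg P ≤ C d m log (d X)` for each `m ≤ 4 X` and each `φ`.  On the other
hand, `∑_{m ≤ M} S_m² ≥ n (M+1) - 2 n²` for `n` points, by positivity of the Fejér kernel.
-/

open Polynomial

namespace Pool.Agent.Results.MP_225a87_nt.LengthFourCount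

universe u

/-- **Counting conjugate sets in intervals of length 4.** Let `L` be a number field of degree `d`,
`a φ` a real number for each embedding `φ : L → ℂ`, and `X` a natural number.  There are at most
`20000 d X log (2 d X)` monic irreducible polynomials `P ∈ L[x]` of degree at most `X` whose
coefficients are algebraic integers and such that for every `φ` all complex roots of `P^φ` are real
and lie in `[a φ, a φ + 4 + 1/(256 d X²)]`. -/
theorem result (L : Type u) [Field L] [NumberField L] (a : (L →+* ℂ) → ℝ) (X : ℕ) :
    {P : L[X] | P.Monic ∧ Irreducible P ∧ (∀ i, IsIntegral ℤ (P.coeff i)) ∧ P.natDegree ≤ X ∧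
      ∀ φ : L →+* ℂ, ∀ w : ℂ, (P.map φ).IsRoot w → w.im = 0 ∧ a φ ≤ w.re ∧
        w.re ≤ a φ + (4 + 1 / (256 * Module.finrank ℚ L * (X : ℝ) ^ 2))}.Finite ∧
    ({P : L[X] | P.Monic ∧ Irreducible P ∧ (∀ i, IsIntegral ℤ (P.coeff i)) ∧ P.natDegree ≤ X ∧
      ∀ φ : L →+* ℂ, ∀ w : ℂ, (P.map φ).IsRoot w → w.im = 0 ∧ a φ ≤ w.re ∧
        w.re ≤ a φ + (4 + 1 / (256 * Module.finrank ℚ L * (X : ℝ) ^ 2))}.ncard : ℝ) ≤
      20000 * (Module.finrank ℚ L * X) * Real.log (2 * (Module.finrank ℚ L * X)) :=
  MP225LS.polySet_bound L a X

end Pool.Agent.Results.MP_225a87_nt.LengthFourCount
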