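import Pool.Agent.Lib_MP_225a87_ls.ShortCount

/-!
# An interval of length `4 - δ` contains at most `C δ^(-1/2) log (2/δ)` conjugate sets

By the theorem of Schur and Pólya an interval of length less than 4 contains only finitely many
conjugate sets.  We bound their number, uniformly in the position of the interval: an interval of
length `4 - δ`, `0 < δ ≤ 1`, contains at most `21000 δ^(-1/2) log (2/δ)` conjugate sets.  The
exponent `1/2` cannot be improved: `[-2 + δ/2, 2 - δ/2]` contains the conjugates of `2 cos (2π/m)`
for all `m ≤ c δ^(-1/2)`.  The result is proved over an arbitrary number field `L` of degree `d`,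
with an interval for each embedding of `L`; the bound is then `21000 (d/δ)^(1/2) log (2d/δ)`.

Outline of the proof.  For degrees at most `(dδ)^(-1/2)` we use the counting theorem for intervals of
length 4 (a large sieve inequality for the power sums of the angles, based on the fact that the
resultants of different polynomials have norm at least 1).  By the argument of Fekete, applied to the
product of all the polynomials, the total degree is at most `1 + (16/δ) log (16/δ)`, which bounds the
number of polynomials of larger degree.
-/

open Polynomial

namespace Pool.Agent.Results.MP_225a87_nt.ShorterThanFour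

universe u

/-- **Number of conjugate sets in intervals of length `4 - δ`.** Let `L` be a number field of degree
`d`, `a φ` a real number for each embedding `φ : L → ℂ`, and `0 < δ ≤ 1`.  There are at most
`21000 (d/δ)^(1/2) log (2d/δ)` monic irreducible polynomials `P ∈ L[x]`, of any degree, whose
coefficients are algebraic integers and such that for every `φ` all complex roots of `P^φ` are real
and lie in `[a φ, a φ + 4 - δ]`. -/
theorem result (L : Type u) [Field L] [NumberField L] (a : (L →+* ℂ) → ℝ) (δ : ℝ) (hδ0 : 0 < δ)
    (hδ1 : δ ≤ 1) :
    {P : L[X] | P.Monic ∧ Irreducible P ∧ (∀ i, IsIntegral ℤ (P.coeff i)) ∧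
      ∀ φ : L →+* ℂ, ∀ w : ℂ, (P.map φ).IsRoot w → w.im = 0 ∧ a φ ≤ w.re ∧
        w.re ≤ a φ + (4 - δ)}.Finite ∧
    ({P : L[X] | P.Monic ∧ Irreducible P ∧ (∀ i, IsIntegral ℤ (P.coeff i)) ∧
      ∀ φ : L →+* ℂ, ∀ w : ℂ, (P.map φ).IsRoot w → w.im = 0 ∧ a φ ≤ w.re ∧
        w.re ≤ a φ + (4 - δ)}.ncard : ℝ) ≤
      21000 * Real.sqrt (Module.finrank ℚ L / δ) * Real.log (2 * Module.finrank ℚ L / δ) :=
  MP225LS.shortSet_bound L a δ hδ0 hδ1

end Pool.Agent.Results.MP_225a87_nt.ShorterThanFour
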